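import Pool.Agent.HCJ.Defs

namespace Pool.Agent.HCJ

open Pool.Agent.HCH Pool.Agent.HCF Pool.Agent.HCR MvPolynomial

variable {K : Type} [Field K] {σ : Type}

theorem cyl_le (A : Set σ) (P : Ideal (MvPolynomial σ K)) : cyl A P ≤ P :=
  Ideal.span_le.2 Set.inter_subset_left

theorem isCyl_cyl (A : Set σ) (P : Ideal (MvPolynomial σ K)) : IsCyl A (cyl A P) :=
  Ideal.span_le.2 fun _ hx => Ideal.subset_span ⟨Ideal.subset_span hx, hx.2⟩

theorem A1_mono (A : Set σ) {P Q : Ideal (MvPolynomial σ K)} (h : P ≤ Q) : cyl A P ≤ cyl A Q :=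
  Ideal.span_mono (Set.inter_subset_inter_left _ h)

theorem le_cyl {A : Set σ} {I P : Ideal (MvPolynomial σ K)} (hI : IsCyl A I) (h : I ≤ P) :
    I ≤ cyl A P :=
  le_trans hI (A1_mono A h)

theorem IsCyl.anti {A A' : Set σ} (h : A ⊆ A') {I : Ideal (MvPolynomial σ K)} (hI : IsCyl A' I) :
    IsCyl A I :=
  le_trans hI (Ideal.span_mono (Set.inter_subset_inter_right _
    (supported_mono (Set.compl_subset_compl.2 h))))

open Classical in
/-- The isomorphism `K[σ] ≅ B[A]`, `B = K[σ ∖ A]`. -/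
noncomputable def A1_e (A : Set σ) :
    MvPolynomial σ K ≃ₐ[K] MvPolynomial A (MvPolynomial (↥Aᶜ) K) :=
  (renameEquiv K (Equiv.Set.sumCompl A).symm).trans (sumAlgEquiv K A ↥Aᶜ)

theorem A1_e_X_mem (A : Set σ) (i : A) : A1_e A (X (i : σ) : MvPolynomial σ K) = X i := by
  classical
  simp [A1_e, Equiv.Set.sumCompl_symm_apply_of_mem i.2]

theorem A1_e_X_compl (A : Set σ) (i : ↥Aᶜ) :
    A1_e A (X (i : σ) : MvPolynomial σ K) = C (X i) := by
  classical
  simp [A1_e, Equiv.Set.sumCompl_symm_apply_of_notMem i.2]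

theorem A1_e_rename_compl (A : Set σ) (b : MvPolynomial (↥Aᶜ) K) :
    A1_e A (rename ((↑) : ↥Aᶜ → σ) b) = C b := by
  induction b using MvPolynomial.induction_on with
  | C a =>
    rw [rename_C]
    exact (A1_e A).commutes a
  | add p q hp hq => rw [map_add, map_add, hp, hq, map_add]
  | mul_X p i hp => rw [map_mul, map_mul, hp, rename_X, A1_e_X_compl, map_mul]

theorem A1_e_rename_mem (A : Set σ) (b : MvPolynomial A K) :
    A1_e A (rename ((↑) : A → σ) b) = MvPolynomial.map C b := by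
  induction b using MvPolynomial.induction_on with
  | C a =>
    rw [rename_C, map_C]
    exact (A1_e A).commutes a
  | add p q hp hq => rw [map_add, map_add, hp, hq, map_add]
  | mul_X p i hp => rw [map_mul, map_mul, hp, rename_X, A1_e_X_mem, map_mul, map_X]

/-- The trace of `P` on the base. -/
noncomputable def A1_q (A : Set σ) (P : Ideal (MvPolynomial σ K)) :
    Ideal (MvPolynomial (↥Aᶜ) K) :=
  P.comap (rename ((↑) : ↥Aᶜ → σ) : MvPolynomial (↥Aᶜ) K →ₐ[K] MvPolynomial σ K)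

theorem A1_cyl_eq (A : Set σ) (P : Ideal (MvPolynomial σ K)) :
    cyl A P = ((A1_q A P).map C).comap (A1_e A) := by
  have h1 : (((P : Set (MvPolynomial σ K)) ∩ (supported K Aᶜ : Set (MvPolynomial σ K)))) =
      (rename ((↑) : ↥Aᶜ → σ) : MvPolynomial (↥Aᶜ) K →ₐ[K] MvPolynomial σ K) ''
        (A1_q A P : Set (MvPolynomial (↥Aᶜ) K)) := by
    ext x
    constructor
    · rintro ⟨hx, hx'⟩
      rw [supported_eq_range_rename] at hx'
      obtain ⟨b, rfl⟩ := hx'
      exact ⟨b, hx, rfl⟩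
    · rintro ⟨b, hb, rfl⟩
      refine ⟨hb, ?_⟩
      rw [supported_eq_range_rename]
      exact ⟨b, rfl⟩
  apply le_antisymm
  · refine Ideal.span_le.2 ?_
    rw [h1]
    rintro x ⟨b, hb, rfl⟩
    rw [SetLike.mem_coe, Ideal.mem_comap]
    rw [A1_e_rename_compl]
    exact Ideal.mem_map_of_mem _ hb
  · intro x hx
    rw [Ideal.mem_comap] at hx
    have h2 : (A1_q A P).map C ≤ (cyl A P).comap (((A1_e A).symm :
        MvPolynomial A (MvPolynomial (↥Aᶜ) K) ≃ₐ[K] MvPolynomial σ K) :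
        MvPolynomial A (MvPolynomial (↥Aᶜ) K) →+* MvPolynomial σ K) := by
      refine Ideal.map_le_iff_le_comap.2 ?_
      intro b hb
      rw [Ideal.mem_comap, Ideal.mem_comap]
      have h3 : (((A1_e A).symm :
          MvPolynomial A (MvPolynomial (↥Aᶜ) K) ≃ₐ[K] MvPolynomial σ K) :
          MvPolynomial A (MvPolynomial (↥Aᶜ) K) →+* MvPolynomial σ K) (C b) =
          rename ((↑) : ↥Aᶜ → σ) b := by
        change (A1_e A).symm (C b) = _
        rw [← A1_e_rename_compl, AlgEquiv.symm_apply_apply]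
      rw [h3]
      unfold cyl
      rw [h1]
      exact Ideal.subset_span ⟨b, hb, rfl⟩
    have h4 := h2 hx
    rw [Ideal.mem_comap] at h4
    have h5 : (((A1_e A).symm :
        MvPolynomial A (MvPolynomial (↥Aᶜ) K) ≃ₐ[K] MvPolynomial σ K) :
        MvPolynomial A (MvPolynomial (↥Aᶜ) K) →+* MvPolynomial σ K) (A1_e A x) = x :=
      (A1_e A).symm_apply_apply x
    rw [h5] at h4
    exact h4

theorem A1_map_C_prime {S B : Type} [CommRing B] {q : Ideal B} (hq : q.IsPrime) :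
    (q.map (C : B →+* MvPolynomial S B)).IsPrime := by
  have h1 : IsDomain (MvPolynomial S (B ⧸ q)) := inferInstance
  have h2 : IsDomain (MvPolynomial S B ⧸ q.map (C : B →+* MvPolynomial S B)) :=
    (quotientEquivQuotientMvPolynomial (σ := S) q).toMulEquiv.symm.isDomain _
  exact (Ideal.Quotient.isDomain_iff_prime _).1 h2

/-
PROOF. K[σ] ≅ B[A] with B = K[σ ∖ A] (renameEquiv of Equiv.Set.sumCompl, sumAlgEquiv): cyl A P is the
extension of P ∩ B, prime by MvPolynomial.quotientEquivQuotientMvPolynomial (or the library).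
-/
theorem cyl_prime (A : Set σ) (P : Ideal (MvPolynomial σ K)) (hP : P.IsPrime) :
    (cyl A P).IsPrime := by
  rw [A1_cyl_eq]
  have h1 : (A1_q A P).IsPrime := Ideal.comap_isPrime _ _
  have h2 : ((A1_q A P).map (C : MvPolynomial (↥Aᶜ) K →+* MvPolynomial A _)).IsPrime :=
    A1_map_C_prime h1
  exact Ideal.comap_isPrime _ _

theorem mem_cyl {A : Set σ} {P : Ideal (MvPolynomial σ K)} {h : MvPolynomial σ K}
    (hh : h ∈ supported K Aᶜ) : h ∈ cyl A P ↔ h ∈ P :=
  ⟨fun h1 => cyl_le A P h1, fun h1 => Ideal.subset_span ⟨h1, hh⟩⟩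

/-
PROOF. In B[A] / (P ∩ B)B[A] = (B / P ∩ B)[A] a nonzero polynomial h in K[A] stays nonzero.
-/
theorem cyl_supp {A : Set σ} {P : Ideal (MvPolynomial σ K)} (hP : P ≠ ⊤) {h : MvPolynomial σ K}
    (hh : h ∈ supported K A) (h0 : h ≠ 0) : h ∉ cyl A P := by
  intro hc
  rw [supported_eq_range_rename] at hh
  obtain ⟨b, rfl⟩ := hh
  rw [A1_cyl_eq, Ideal.mem_comap] at hc
  change A1_e A (rename _ b) ∈ _ at hc
  rw [A1_e_rename_mem, mem_map_C_iff] at hc
  have hb : b ≠ 0 := by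
    rintro rfl
    exact h0 (map_zero _)
  obtain ⟨m, hm⟩ := ne_zero_iff.1 hb
  have h1 := hc m
  rw [coeff_map] at h1
  unfold A1_q at h1
  rw [Ideal.mem_comap] at h1
  change rename _ (C (coeff m b)) ∈ P at h1
  rw [rename_C] at h1
  apply hP
  refine Ideal.eq_top_of_isUnit_mem P h1 ?_
  exact (isUnit_iff_ne_zero.2 hm).map C

end Pool.Agent.HCJ
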