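import Pool.Agent.HCR.C1
import Pool.Agent.HCR.B1c

/-!
Sums of forms in disjoint sets of variables: definitions. All subvarieties are primes of one
polynomial ring `K[σ]`; for a set `A` of variables, `Spec K[σ] → Spec K[σ ∖ A]` is the projection
to the base, and the primes generated by polynomials in the variables outside `A` are the
subvarieties which come from the base.
-/

namespace Pool.Agent.HCJ

open Pool.Agent.HCH Pool.Agent.HCF Pool.Agent.HCR MvPolynomial

variable {K : Type} [Field K] {σ : Type}

/-- The ideal generated by the elements of `P` which involve only the variables outside `A`: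
the inverse image of the closure of the image of `V(P)` in the base. -/
noncomputable def cyl (A : Set σ) (P : Ideal (MvPolynomial σ K)) : Ideal (MvPolynomial σ K) :=
  Ideal.span ((P : Set (MvPolynomial σ K)) ∩ (supported K Aᶜ : Set (MvPolynomial σ K)))

/-- `Q` is generated by polynomials in the variables outside `A`. -/
def IsCyl (A : Set σ) (Q : Ideal (MvPolynomial σ K)) : Prop := Q ≤ cyl A Q

/-- The cycles of dimension `e` on `V(I) ∩ V(H)` which are rationally equivalent to a combination of
divisors of `H` on subvarieties of `V(I)` which come from the base. -/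
noncomputable def Tg (A : Set σ) (I : Ideal (MvPolynomial σ K)) (H : MvPolynomial σ K) (e : ℕ) :
    AddSubgroup (PrimeSpectrum (MvPolynomial σ K) →₀ ℤ) :=
  Rt K (I ⊔ Ideal.span {H}) e ⊔ AddSubgroup.closure {z | ∃ Q : PrimeSpectrum (MvPolynomial σ K),
    IsCyl A Q.asIdeal ∧ I ≤ Q.asIdeal ∧ dm K Q.asIdeal = e + 1 ∧ z = fdiv K Q.asIdeal H e}

/-- Every cycle on `V(H)` of codimension at most `c` over the base comes from the base, up to
torsion. -/
def TT (A : Set σ) (H : MvPolynomial σ K) (c : ℕ) : Prop :=
  ∀ p : PrimeSpectrum (MvPolynomial σ K), H ∈ p.asIdeal →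
    dm K (cyl A p.asIdeal) ≤ dm K p.asIdeal + 1 + c →
      ∃ N : ℕ, 0 < N ∧ (N : ℤ) • Finsupp.single p (1 : ℤ) ∈
        Tg A (cyl A p.asIdeal) H (dm K p.asIdeal)

/-- The automorphism `x_i ↦ u_i x_i`. -/
noncomputable def scl (u : σ → Kˣ) : MvPolynomial σ K ≃ₐ[K] MvPolynomial σ K :=
  AlgEquiv.ofAlgHom (aeval fun i => C (u i : K) * X i) (aeval fun i => C (((u i)⁻¹ : Kˣ) : K) * X i)
    (by
      apply MvPolynomial.algHom_ext
      intro i
      simp only [AlgHom.comp_apply, aeval_X, map_mul, algHom_C, AlgHom.id_apply]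
      rw [← mul_assoc, algebraMap_eq, ← C_mul, Units.inv_mul, C_1, one_mul])
    (by
      apply MvPolynomial.algHom_ext
      intro i
      simp only [AlgHom.comp_apply, aeval_X, map_mul, algHom_C, AlgHom.id_apply]
      rw [← mul_assoc, algebraMap_eq, ← C_mul, Units.mul_inv, C_1, one_mul])

open Classical in
/-- The function with value `t` on `S` and `1` outside. -/
noncomputable def ch (S : Set σ) (t : Kˣ) : σ → Kˣ := fun i => if i ∈ S then t else 1

open Classical in
/-- The weights: `1` on `S` and `0` outside. -/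
noncomputable def wt (S : Set σ) : σ → ℕ := fun i => if i ∈ S then 1 else 0

/-- `f` is an irreducible polynomial in the variables `A₀` and the `g i`, `i ∈ J`, are nonzero forms
of degree `D` in the variables `V i`; the sets `A₀`, `V i` are pairwise disjoint. -/
structure Bl {ι : Type} (D : ℕ) (A₀ : Set σ) (f : MvPolynomial σ K) (J : Finset ι) (V : ι → Set σ)
    (g : ι → MvPolynomial σ K) : Prop where
  f_mem : f ∈ supported K A₀
  f_irr : Irreducible f
  mem : ∀ i ∈ J, g i ∈ supported K (V i)
  hom : ∀ i ∈ J, (g i).IsHomogeneous D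
  ne : ∀ i ∈ J, g i ≠ 0
  disj₀ : ∀ i ∈ J, Disjoint A₀ (V i)
  disj : ∀ i ∈ J, ∀ j ∈ J, i ≠ j → Disjoint (V i) (V j)

end Pool.Agent.HCJ
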