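import Pool.Agent.HCJ.A1
import Pool.Agent.HCR.U1b

namespace Pool.Agent.HCJ

open Pool.Agent.HCH Pool.Agent.HCF Pool.Agent.HCR MvPolynomial

section
variable {K R : Type} [Field K] [CommRing R] [Algebra K R] {ι : Type}

/-- Apply a linear functional to the coefficients. -/
noncomputable def F1_phi (φ : R →ₗ[K] K) (a : MvPolynomial ι R) : MvPolynomial ι K :=
  ∑ s ∈ a.support, monomial s (φ (coeff s a))

theorem F1_coeff (φ : R →ₗ[K] K) (a : MvPolynomial ι R) (t : ι →₀ ℕ) : coeff t (F1_phi φ a) = φ (coeff t a) := by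
  classical
  rw [F1_phi, coeff_sum]
  simp only [coeff_monomial]
  rw [Finset.sum_ite_eq' a.support t]
  split_ifs with h
  · rfl
  · rw [notMem_support_iff.1 h, map_zero]

theorem F1_add (φ : R →ₗ[K] K) (a b : MvPolynomial ι R) : F1_phi φ (a + b) = F1_phi φ a + F1_phi φ b := by
  ext t
  rw [F1_coeff, coeff_add, coeff_add, F1_coeff, F1_coeff, map_add]

theorem F1_zero (φ : R →ₗ[K] K) : F1_phi φ (0 : MvPolynomial ι R) = 0 := by
  ext t
  rw [F1_coeff, coeff_zero, coeff_zero, map_zero]

theorem F1_mul (φ : R →ₗ[K] K) (a : MvPolynomial ι R) (r : MvPolynomial ι K) :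
    F1_phi φ (a * MvPolynomial.map (algebraMap K R) r) = F1_phi φ a * r := by
  classical
  ext t
  rw [F1_coeff, coeff_mul, coeff_mul, map_sum]
  refine Finset.sum_congr rfl fun x _ => ?_
  rw [F1_coeff, coeff_map, mul_comm, ← Algebra.smul_def, map_smul, smul_eq_mul, mul_comm]

theorem F1_in (φ : R →ₗ[K] K) (p : Ideal (MvPolynomial ι K)) (u : MvPolynomial ι R)
    (hu : u ∈ p.map (MvPolynomial.map (algebraMap K R))) : F1_phi φ u ∈ p := by
  rw [Ideal.map] at hu
  suffices h : ∀ a, F1_phi φ (a * u) ∈ p by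
    have := h 1
    rwa [one_mul] at this
  refine Submodule.span_induction (p := fun u _ => ∀ a, F1_phi φ (a * u) ∈ p) ?_ ?_ ?_ ?_ hu
  · rintro x ⟨r, hr, rfl⟩ a
    rw [F1_mul]
    exact p.mul_mem_left _ hr
  · intro a
    rw [mul_zero, F1_zero]
    exact p.zero_mem
  · intro x y _ _ hx hy a
    rw [mul_add, F1_add]
    exact p.add_mem (hx a) (hy a)
  · intro b x _ hx a
    rw [smul_eq_mul, ← mul_assoc]
    exact hx _

theorem F1_mem (p : Ideal (MvPolynomial ι K)) (u : MvPolynomial ι R)
    (h : ∀ φ : R →ₗ[K] K, F1_phi φ u ∈ p) : u ∈ p.map (MvPolynomial.map (algebraMap K R)) := by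
  classical
  set B := Module.Basis.ofVectorSpace K R with hB
  set T := u.support.biUnion (fun s => (B.repr (coeff s u)).support) with hT
  have h1 : u = ∑ b ∈ T, C (B b) * MvPolynomial.map (algebraMap K R) (F1_phi (B.coord b) u) := by
    ext t
    rw [coeff_sum]
    have h2 : ∀ b, coeff t (C (B b) * MvPolynomial.map (algebraMap K R) (F1_phi (B.coord b) u)) =
        B.repr (coeff t u) b • B b := by
      intro b
      rw [coeff_C_mul, coeff_map, F1_coeff, Module.Basis.coord_apply, Algebra.smul_def, mul_comm]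
    rw [Finset.sum_congr rfl fun b _ => h2 b]
    by_cases ht : t ∈ u.support
    · have h3 : (B.repr (coeff t u)).support ⊆ T :=
        Finset.subset_biUnion_of_mem (fun s => (B.repr (coeff s u)).support) ht
      have h4 := B.linearCombination_repr (coeff t u)
      rw [Finsupp.linearCombination_apply, Finsupp.sum_of_support_subset _ h3 _
        (fun i _ => zero_smul K (B i))] at h4
      exact h4.symm
    · rw [notMem_support_iff.1 ht, map_zero]
      simp
  rw [h1]
  exact Ideal.sum_mem _ fun b _ => Ideal.mul_mem_left _ _ (Ideal.mem_map_of_mem _ (h _))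

theorem F1_eval [Fintype ι] (φ : R →ₗ[K] K) (u : MvPolynomial ι R) (x : ι → K) :
    φ (eval (fun i => algebraMap K R (x i)) u) = eval x (F1_phi φ u) := by
  rw [eval_eq', F1_phi, map_sum, map_sum]
  refine Finset.sum_congr rfl fun s _ => ?_
  rw [eval_monomial, Finsupp.prod_fintype _ _ (fun i => pow_zero _)]
  have h1 : ∏ i, (algebraMap K R (x i)) ^ s i = algebraMap K R (∏ i, x i ^ s i) := by
    rw [map_prod]
    exact Finset.prod_congr rfl fun i _ => (map_pow _ _ _).symm
  rw [h1, mul_comm, ← Algebra.smul_def, map_smul, smul_eq_mul, mul_comm]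

/-- The base change of a prime from an algebraically closed field to a domain is prime. -/
theorem F1_prime [IsAlgClosed K] [IsDomain R] [Finite ι] (p : Ideal (MvPolynomial ι K)) (hp : p.IsPrime) :
    (p.map (MvPolynomial.map (algebraMap K R) : MvPolynomial ι K →+* MvPolynomial ι R)).IsPrime := by
  classical
  haveI := Fintype.ofFinite ι
  refine ⟨?_, ?_⟩
  · intro h0
    have h1 : (1 : MvPolynomial ι R) ∈ p.map (MvPolynomial.map (algebraMap K R)) := by
      rw [h0]
      exact Submodule.mem_top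
    set B := Module.Basis.ofVectorSpace K R with hB
    obtain ⟨b, hb⟩ : ∃ b, B.coord b 1 ≠ 0 := by
      by_contra hcon
      push Not at hcon
      have h2 : B.repr (1 : R) = 0 := by
        ext b
        exact hcon b
      exact one_ne_zero ((LinearEquiv.map_eq_zero_iff B.repr).1 h2)
    have h2 := F1_in (B.coord b) p 1 h1
    have h3 : F1_phi (B.coord b) (1 : MvPolynomial ι R) = C (B.coord b 1) := by
      ext t
      rw [F1_coeff, coeff_C, ← C_1, coeff_C]
      split_ifs
      · rfl
      · rw [map_zero]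
    rw [h3] at h2
    exact hp.ne_top (Ideal.eq_top_of_isUnit_mem _ h2 ((isUnit_iff_ne_zero.2 hb).map C))
  · intro u v huv
    by_contra hcon
    rw [not_or] at hcon
    obtain ⟨hu, hv⟩ := hcon
    obtain ⟨φ, hφ⟩ : ∃ φ : R →ₗ[K] K, F1_phi φ u ∉ p := by
      by_contra h
      push Not at h
      exact hu (F1_mem _ _ h)
    obtain ⟨ψ, hψ⟩ : ∃ φ : R →ₗ[K] K, F1_phi φ v ∉ p := by
      by_contra h
      push Not at h
      exact hv (F1_mem _ _ h)
    have h1 : F1_phi φ u * F1_phi ψ v ∉ p := fun h => (hp.mem_or_mem h).elim hφ hψ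
    have h2 : vanishingIdeal K (zeroLocus K p) = p := by
      rw [vanishingIdeal_zeroLocus_eq_radical, hp.radical]
    rw [← h2, mem_vanishingIdeal_iff] at h1
    push Not at h1
    obtain ⟨x, hx, hne⟩ := h1
    rw [mem_zeroLocus_iff] at hx
    have h3 : ∀ w ∈ p.map (MvPolynomial.map (algebraMap K R)), eval (fun i => algebraMap K R (x i)) w = 0 := by
      have h4 : p.map (MvPolynomial.map (algebraMap K R)) ≤ RingHom.ker (eval (fun i => algebraMap K R (x i))) := by
        rw [Ideal.map_le_iff_le_comap]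
        intro r hr
        rw [Ideal.mem_comap, RingHom.mem_ker, eval_map]
        have h5 := hx r hr
        have h6 : eval₂ (algebraMap K R) (fun i => algebraMap K R (x i)) r = algebraMap K R (eval x r) :=
          (eval₂_comp_left (algebraMap K R) (RingHom.id K) x r).symm
        rw [h6]
        have h7 : eval x r = 0 := h5
        rw [h7, map_zero]
      exact fun w hw => h4 hw
    have h8 := h3 _ huv
    rw [map_mul] at h8
    have h9 : eval x (F1_phi φ u) * eval x (F1_phi ψ v) ≠ 0 := by
      rw [← map_mul]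
      exact hne
    rcases mul_eq_zero.1 h8 with h10 | h10
    · rw [← F1_eval φ u x, h10, map_zero, zero_mul] at h9
      exact h9 rfl
    · rw [← F1_eval ψ v x, h10, map_zero, mul_zero] at h9
      exact h9 rfl

end

variable {K : Type} [Field K] [IsAlgClosed K] {σ : Type} [Finite σ]

/-
PROOF. K[σ] / (Q + (H)) = (K[σ ∖ A] / Q ∩ K[σ ∖ A]) ⊗_K K[A] / (H), a tensor product of two domains over an
algebraically closed field; ext_prime of HCR/U1b is the case of a field on the left, the left factor
embeds in its fraction field and K[A] / (H) is free over K.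
-/
theorem prime_sup {A : Set σ} (Q : Ideal (MvPolynomial σ K)) (hQp : Q.IsPrime) (hQ : IsCyl A Q)
    {H : MvPolynomial σ K} (hH : H ∈ supported K A) (hirr : Irreducible H) :
    (Q ⊔ Ideal.span {H}).IsPrime := by
  classical
  set ρ : MvPolynomial ↥Aᶜ K →ₐ[K] MvPolynomial σ K := rename Subtype.val with hρ
  set q : Ideal (MvPolynomial ↥Aᶜ K) := Q.comap (ρ : MvPolynomial ↥Aᶜ K →+* MvPolynomial σ K) with hq
  haveI hqp : q.IsPrime := Ideal.comap_isPrime _ _
  let Φ : MvPolynomial σ K →ₐ[K] MvPolynomial ↥A (MvPolynomial ↥Aᶜ K ⧸ q) :=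
    aeval fun i => if h : i ∈ A then X ⟨i, h⟩ else C (Ideal.Quotient.mk q (X ⟨i, h⟩))
  have hΦA : ∀ i : ↥A, Φ (X i.1) = X i := by
    intro i
    show aeval _ (X i.1) = _
    rw [aeval_X, dif_pos i.2]
  have hΦB : ∀ b : MvPolynomial ↥Aᶜ K, Φ (ρ b) = C (Ideal.Quotient.mk q b) := by
    intro b
    have h1 : Φ.comp ρ = (IsScalarTower.toAlgHom K (MvPolynomial ↥Aᶜ K ⧸ q) (MvPolynomial ↥A (MvPolynomial ↥Aᶜ K ⧸ q))).comp
        (Ideal.Quotient.mkₐ K q) := by
      apply MvPolynomial.algHom_ext
      intro i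
      show Φ (ρ (X i)) = C (Ideal.Quotient.mk q (X i))
      rw [hρ, rename_X]
      show aeval _ (X i.1) = _
      rw [aeval_X, dif_neg i.2]
    exact congrArg (fun g : MvPolynomial ↥Aᶜ K →ₐ[K] _ => g b) h1
  have hsurj : Function.Surjective (Φ : MvPolynomial σ K →+* MvPolynomial ↥A (MvPolynomial ↥Aᶜ K ⧸ q)) := by
    intro y
    induction y using MvPolynomial.induction_on with
    | C r =>
      obtain ⟨b, rfl⟩ := Ideal.Quotient.mk_surjective r
      exact ⟨ρ b, hΦB b⟩
    | add a b ha hb =>
      obtain ⟨a', rfl⟩ := ha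
      obtain ⟨b', rfl⟩ := hb
      exact ⟨a' + b', map_add _ _ _⟩
    | mul_X a i ha =>
      obtain ⟨a', rfl⟩ := ha
      refine ⟨a' * X i.1, ?_⟩
      rw [map_mul]
      congr 1
      exact hΦA i
  have hker : Ideal.comap (Φ : MvPolynomial σ K →+* MvPolynomial ↥A (MvPolynomial ↥Aᶜ K ⧸ q)) ⊥ = Q := by
    apply le_antisymm
    · intro f hf
      have hf0 : Φ f = 0 := (Submodule.mem_bot _).1 (Ideal.mem_comap.1 hf)
      let g₀ : (MvPolynomial ↥Aᶜ K ⧸ q) →+* (MvPolynomial σ K ⧸ Q) :=
        Ideal.Quotient.lift q ((Ideal.Quotient.mk Q).comp (ρ : MvPolynomial ↥Aᶜ K →+* MvPolynomial σ K)) fun a ha =>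
          Ideal.Quotient.eq_zero_iff_mem.2 ha
      let Ψ : MvPolynomial ↥A (MvPolynomial ↥Aᶜ K ⧸ q) →+* (MvPolynomial σ K ⧸ Q) :=
        eval₂Hom g₀ fun i => Ideal.Quotient.mk Q (X i.1)
      have h1 : Ψ.comp (Φ : MvPolynomial σ K →+* _) = Ideal.Quotient.mk Q := by
        apply MvPolynomial.ringHom_ext
        · intro r
          have h2 : Φ (C r) = C (Ideal.Quotient.mk q (C r)) := by
            have h3 := hΦB (C r)
            rwa [hρ, rename_C] at h3
          show Ψ (Φ (C r)) = _
          rw [h2]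
          show eval₂ g₀ _ (C (Ideal.Quotient.mk q (C r))) = _
          rw [eval₂_C]
          show Ideal.Quotient.mk Q (ρ (C r)) = _
          rw [hρ, rename_C]
        · intro i
          show Ψ (Φ (X i)) = _
          by_cases h : i ∈ A
          · have h2 := hΦA ⟨i, h⟩
            rw [h2]
            show eval₂ g₀ _ (X _) = _
            rw [eval₂_X]
          · have h2 := hΦB (X ⟨i, h⟩)
            rw [hρ, rename_X] at h2
            rw [h2]
            show eval₂ g₀ _ (C (Ideal.Quotient.mk q (X ⟨i, h⟩))) = _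
            rw [eval₂_C]
            show Ideal.Quotient.mk Q (ρ (X ⟨i, h⟩)) = _
            rw [hρ, rename_X]
      have h2 : Ψ (Φ f) = Ideal.Quotient.mk Q f := congrArg (fun g : MvPolynomial σ K →+* _ => g f) h1
      rw [hf0, map_zero] at h2
      exact Ideal.Quotient.eq_zero_iff_mem.1 h2.symm
    · refine hQ.trans ?_
      unfold cyl
      rw [Ideal.span_le]
      rintro g ⟨hg1, hg2⟩
      have hg3 : g ∈ Set.range ρ := by
        have h4 := hg2
        rw [SetLike.mem_coe, supported_eq_range_rename] at h4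
        exact h4
      obtain ⟨b, rfl⟩ := hg3
      rw [SetLike.mem_coe, Ideal.mem_comap, Submodule.mem_bot]
      show Φ (ρ b) = 0
      rw [hΦB]
      have h5 : Ideal.Quotient.mk q b = 0 := Ideal.Quotient.eq_zero_iff_mem.2 hg1
      rw [h5, C_0]
  -- the polynomial `H` in the variables `A`
  obtain ⟨H', hH'⟩ : ∃ H' : MvPolynomial ↥A K, rename Subtype.val H' = H := by
    have h4 := hH
    rw [supported_eq_range_rename] at h4
    exact h4
  have hΦH : Φ H = MvPolynomial.map (algebraMap K (MvPolynomial ↥Aᶜ K ⧸ q)) H' := by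
    rw [← hH']
    have h1 : (Φ.comp (rename Subtype.val : MvPolynomial ↥A K →ₐ[K] MvPolynomial σ K) : MvPolynomial ↥A K →+* _) =
        MvPolynomial.map (algebraMap K (MvPolynomial ↥Aᶜ K ⧸ q)) := by
      apply MvPolynomial.ringHom_ext
      · intro r
        show Φ (rename Subtype.val (C r)) = _
        rw [rename_C, map_C]
        exact Φ.commutes r
      · intro i
        show Φ (rename Subtype.val (X i)) = _
        rw [rename_X, map_X]
        exact hΦA i
    exact congrArg (fun g : MvPolynomial ↥A K →+* _ => g H') h1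
  have hpr : Prime H' := by
    have hp0 : Prime H := hirr.prime
    have hinj : Function.Injective (Subtype.val : ↥A → σ) := Subtype.val_injective
    have hk : ∀ a : MvPolynomial ↥A K, killCompl hinj (rename Subtype.val a) = a := killCompl_rename_app hinj
    refine ⟨?_, ?_, ?_⟩
    · rintro rfl
      rw [map_zero] at hH'
      exact hp0.ne_zero hH'.symm
    · intro hu
      have := hu.map (rename Subtype.val : MvPolynomial ↥A K →ₐ[K] MvPolynomial σ K)
      rw [hH'] at this
      exact hp0.not_isUnit this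
    · intro a b hab
      have h1 := map_dvd (rename Subtype.val : MvPolynomial ↥A K →ₐ[K] MvPolynomial σ K) hab
      rw [hH', map_mul] at h1
      rcases hp0.dvd_or_dvd h1 with h2 | h2
      · left
        have h3 := map_dvd (killCompl hinj : MvPolynomial σ K →ₐ[K] MvPolynomial ↥A K) h2
        rwa [← hH', hk, hk] at h3
      · right
        have h3 := map_dvd (killCompl hinj : MvPolynomial σ K →ₐ[K] MvPolynomial ↥A K) h2
        rwa [← hH', hk, hk] at h3
  have hsp : (Ideal.span {H'}).IsPrime := (Ideal.span_singleton_prime hpr.ne_zero).2 hpr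
  have h1 := F1_prime (R := MvPolynomial ↥Aᶜ K ⧸ q) _ hsp
  have h2 : (Ideal.span {H'}).map (MvPolynomial.map (algebraMap K (MvPolynomial ↥Aᶜ K ⧸ q)) :
      MvPolynomial ↥A K →+* MvPolynomial ↥A (MvPolynomial ↥Aᶜ K ⧸ q)) =
      (Ideal.span {H}).map (Φ : MvPolynomial σ K →+* MvPolynomial ↥A (MvPolynomial ↥Aᶜ K ⧸ q)) := by
    rw [Ideal.map_span, Ideal.map_span, Set.image_singleton, Set.image_singleton]
    congr 2
    exact hΦH.symm
  have h3 := Ideal.comap_map_of_surjective (Φ : MvPolynomial σ K →+* MvPolynomial ↥A (MvPolynomial ↥Aᶜ K ⧸ q)) hsurj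
    (Ideal.span {H})
  rw [hker, sup_comm] at h3
  rw [← h3, ← h2]
  exact Ideal.comap_isPrime _ _

end Pool.Agent.HCJ
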