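import Pool.Agent.HCJ.F1

namespace Pool.Agent.HCJ

open Pool.Agent.HCH Pool.Agent.HCF Pool.Agent.HCR MvPolynomial

/-
PROOF. W + (g) is minimal over itself: dm = e (dm_le_min, dm_lt); mlt_self; a prime of dimension e over it is it.
-/
theorem fdiv_of_prime {K R : Type} [Field K] [CommRing R] [Algebra K R] [Algebra.FiniteType K R]
    (W : Ideal R) (hW : W.IsPrime) (g : R) (hg : g ∉ W) (hP : (W ⊔ Ideal.span {g}).IsPrime) (e : ℕ)
    (hd : dm K W = e + 1) : dm K (W ⊔ Ideal.span {g}) = e ∧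
      fdiv K W g e = Finsupp.single ⟨W ⊔ Ideal.span {g}, hP⟩ 1 := by
  have hlt : W < W ⊔ Ideal.span {g} := by
    refine lt_of_le_of_ne le_sup_left fun h => hg ?_
    rw [h]
    exact Submodule.mem_sup_right (Ideal.mem_span_singleton_self g)
  have h1 : dm K (W ⊔ Ideal.span {g}) < dm K W := dm_lt W _ hlt
  have h2 : dm K W ≤ dm K (W ⊔ Ideal.span {g}) + 1 := by
    refine dm_le_min W _ g ⟨⟨hP, le_rfl⟩, fun q hq _ => hq.2⟩
  have hdim : dm K (W ⊔ Ideal.span {g}) = e := by omega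
  refine ⟨hdim, ?_⟩
  classical
  ext P
  rw [fdiv_eq W g hg e hd]
  by_cases hPP : P = ⟨W ⊔ Ideal.span {g}, hP⟩
  · subst hPP
    rw [Finsupp.single_eq_same]
    unfold adiv
    rw [if_pos hdim]
    unfold od
    have h3 := mlt_self (⟨W ⊔ Ideal.span {g}, hP⟩ : PrimeSpectrum R)
    have h4 : mlt (W ⊔ Ideal.span {g}) (⟨W ⊔ Ideal.span {g}, hP⟩ : PrimeSpectrum R) = 1 := h3
    rw [h4]
    rfl
  · rw [Finsupp.single_apply, if_neg (Ne.symm hPP)]
    by_contra h3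
    obtain ⟨h4, h5⟩ := adiv_supp W g e P h3
    haveI := P.isPrime
    have h6 := eq_of_dm_le (K := K) (W ⊔ Ideal.span {g}) P.asIdeal h5 (by rw [hdim, h4])
    exact hPP (PrimeSpectrum.ext h6.symm)

variable {K : Type} [Field K] [IsAlgClosed K] {σ : Type} [Finite σ]

/-
PROOF. P with H ∈ P, dm (cyl A P) ≤ dm P + 1: Q = cyl A P, Q + (H) ≤ P prime of dimension dm Q - 1 ≤ dm P, so
P = Q + (H), single P 1 = fdiv K Q H (dm P), N = 1.
-/
theorem base {A : Set σ} {H : MvPolynomial σ K} (hH : H ∈ supported K A) (hirr : Irreducible H) :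
    TT A H 0 := by
  intro p hp hc
  haveI := p.isPrime
  have hQ : (cyl A p.asIdeal).IsPrime := cyl_prime A p.asIdeal p.isPrime
  have hHQ : H ∉ cyl A p.asIdeal := cyl_supp p.isPrime.ne_top hH hirr.ne_zero
  have hP : (cyl A p.asIdeal ⊔ Ideal.span {H}).IsPrime := prime_sup _ hQ (isCyl_cyl A p.asIdeal) hH hirr
  have hle : cyl A p.asIdeal ⊔ Ideal.span {H} ≤ p.asIdeal :=
    sup_le (cyl_le A p.asIdeal) ((Ideal.span_singleton_le_iff_mem _).2 hp)
  have hlt : cyl A p.asIdeal < p.asIdeal := by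
    refine lt_of_le_of_ne (cyl_le A p.asIdeal) fun h => hHQ ?_
    rw [h]
    exact hp
  have h1 : dm K p.asIdeal < dm K (cyl A p.asIdeal) := dm_lt _ _ hlt
  have hd : dm K (cyl A p.asIdeal) = dm K p.asIdeal + 1 := by omega
  obtain ⟨h2, h3⟩ := fdiv_of_prime (K := K) _ hQ H hHQ hP _ hd
  have h4 : cyl A p.asIdeal ⊔ Ideal.span {H} = p.asIdeal := eq_of_dm_le (K := K) _ _ hle (by rw [h2])
  have h5 : (⟨cyl A p.asIdeal ⊔ Ideal.span {H}, hP⟩ : PrimeSpectrum (MvPolynomial σ K)) = p := PrimeSpectrum.ext h4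
  rw [h5] at h3
  refine ⟨1, one_pos, ?_⟩
  rw [Nat.cast_one, one_smul]
  refine AddSubgroup.mem_sup_right (AddSubgroup.subset_closure ?_)
  exact ⟨⟨cyl A p.asIdeal, hQ⟩, isCyl_cyl A p.asIdeal, le_rfl, hd, h3.symm⟩

end Pool.Agent.HCJ
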